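import Pool.Agent.Helper16.GR.Moll

/-!
# P13 : approximation of the initial data
-/

set_option autoImplicit false

open scoped ContDiff Topology NNReal
open Set Filter MeasureTheory

namespace Pool.Agent.GR

open Pool.Agent.Helper25.GrimReaper

variable {n : ℕ}

/-! ### soft threshold -/

/-- Soft threshold. -/
noncomputable def P13thr (δ r : ℝ) : ℝ := max (r - δ) 0 + min (r + δ) 0

lemma P13thr_sub_le {δ : ℝ} (hδ : 0 ≤ δ) (r : ℝ) : |P13thr δ r - r| ≤ δ := by
  unfold P13thr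
  rw [abs_le]
  rcases le_total (r - δ) 0 with h1 | h1 <;> rcases le_total (r + δ) 0 with h2 | h2 <;>
    simp only [max_eq_right h1, max_eq_left h1, min_eq_left h2, min_eq_right h2] <;>
    constructor <;> linarith

lemma P13thr_zero {δ r : ℝ} (h : |r| ≤ δ) : P13thr δ r = 0 := by
  rw [abs_le] at h
  unfold P13thr
  rw [max_eq_right (by linarith), min_eq_right (by linarith), add_zero]

lemma P13thr_abs_le {δ : ℝ} (hδ : 0 ≤ δ) (r : ℝ) : |P13thr δ r| ≤ |r| := by
  unfold P13thr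
  rcases abs_cases r with ⟨h, h0⟩ | ⟨h, h0⟩ <;> rw [h] <;> rw [abs_le]
  · rcases le_total (r - δ) 0 with h1 | h1 <;> rcases le_total (r + δ) 0 with h2 | h2 <;>
    simp only [max_eq_right h1, max_eq_left h1, min_eq_left h2, min_eq_right h2] <;>
    constructor <;> linarith
  · rcases le_total (r - δ) 0 with h1 | h1 <;> rcases le_total (r + δ) 0 with h2 | h2 <;>
    simp only [max_eq_right h1, max_eq_left h1, min_eq_left h2, min_eq_right h2] <;>
    constructor <;> linarith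

lemma P13thr_lip {δ : ℝ} (hδ : 0 ≤ δ) (r s : ℝ) : |P13thr δ r - P13thr δ s| ≤ |r - s| := by
  have key : ∀ r s : ℝ, r ≤ s → |P13thr δ r - P13thr δ s| ≤ |r - s| := by
    intro r s hrs
    unfold P13thr
    rw [abs_of_nonpos (a := r - s) (by linarith), abs_le]
    rcases le_total (r - δ) 0 with h1 | h1 <;> rcases le_total (r + δ) 0 with h2 | h2 <;>
    rcases le_total (s - δ) 0 with h3 | h3 <;> rcases le_total (s + δ) 0 with h4 | h4 <;>
    simp only [max_eq_right h1, max_eq_left h1, min_eq_left h2, min_eq_right h2,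
      max_eq_right h3, max_eq_left h3, min_eq_left h4, min_eq_right h4] <;>
    constructor <;> linarith
  rcases le_total r s with h | h
  · exact key r s h
  · rw [abs_sub_comm, abs_sub_comm r s]; exact key s r h

lemma P13thr_continuous (δ : ℝ) : Continuous (P13thr δ) := by
  unfold P13thr; fun_prop

/-! ### local uniform Lipschitz constants -/

lemma P13_unif_lip {F : E n → ℝ} {K : Set (E n)} (hK : IsCompact K)
    (hF : ∀ x ∈ K, ∃ C : ℝ≥0, ∃ t ∈ 𝓝 x, LipschitzOnWith C F t) :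
    ∃ r : ℝ, 0 < r ∧ ∃ Λ : ℝ≥0, ∀ x ∈ K, LipschitzOnWith Λ F (Metric.ball x r) := by
  choose! C t ht hC using hF
  have h1 : ∀ x ∈ K, ∃ ρ : ℝ, 0 < ρ ∧ Metric.ball x (2 * ρ) ⊆ t x := by
    intro x hx
    obtain ⟨ρ, hρ, hb⟩ := Metric.mem_nhds_iff.1 (ht x hx)
    exact ⟨ρ / 2, by positivity, by rw [mul_div_cancel₀ _ (two_ne_zero)]; exact hb⟩
  choose! ρ hρ hb using h1
  obtain ⟨s, hsK, hs⟩ := hK.elim_nhds_subcover (fun x => Metric.ball x (ρ x))
    (fun x hx => Metric.ball_mem_nhds x (hρ x hx))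
  rcases s.eq_empty_or_nonempty with rfl | hne
  · refine ⟨1, one_pos, 0, fun x hx => ?_⟩
    have := hs hx
    simp at this
  · refine ⟨s.inf' hne ρ, ?_, s.sup C, ?_⟩
    · rw [Finset.lt_inf'_iff]
      exact fun x hx => hρ x (hsK x hx)
    · intro y hy
      obtain ⟨x, hx⟩ := mem_iUnion.1 (hs hy)
      obtain ⟨hxs, hyx⟩ := mem_iUnion.1 hx
      have h2 : LipschitzOnWith (C x) F (Metric.ball y (s.inf' hne ρ)) := by
        refine (hC x (hsK x hxs)).mono (Subset.trans ?_ (hb x (hsK x hxs)))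
        intro z hz
        have h3 : s.inf' hne ρ ≤ ρ x := Finset.inf'_le ρ hxs
        rw [Metric.mem_ball] at hz hyx ⊢
        calc dist z x ≤ dist z y + dist y x := dist_triangle _ _ _
          _ < 2 * ρ x := by linarith
      exact h2.weaken (Finset.le_sup hxs)

/-! ### reduction to the period cell -/

/-- Reduction modulo `P` to the cell `[-P/2, P/2)ⁿ`. -/
noncomputable def P13red (P : ℝ) (x : E n) : E n :=
  WithLp.toLp 2 (fun i => x i - P * round (x i / P))

lemma P13red_apply (P : ℝ) (x : E n) (i : Fin n) :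
    P13red P x i = x i - P * round (x i / P) := rfl

lemma P13red_add {P : ℝ} (hP : 0 < P) (x : E n) (i : Fin n) :
    P13red P (x + P • ee i) = P13red P x := by
  ext j
  rw [P13red_apply, P13red_apply]
  by_cases h : j = i
  · subst h
    have h1 : (x + P • ee j) j = x j + P := by simp
    have h2 : (x j + P) / P = x j / P + 1 := by field_simp
    rw [h1, h2, round_add_one]
    push_cast
    ring
  · have h1 : (x + P • ee i) j = x j := by simp [h]
    rw [h1]

lemma P13red_eq {P : ℝ} (hP : 0 < P) {x : E n} (h : ∀ i, |x i| < P / 2) : P13red P x = x := by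
  ext i
  rw [P13red_apply]
  have h1 : round (x i / P) = 0 := by
    rw [round_eq_zero_iff]
    have h2 := abs_lt.1 (h i)
    constructor
    · rw [le_div_iff₀ hP]; linarith
    · rw [div_lt_iff₀ hP]; linarith
  rw [h1]; simp

lemma P13red_abs_le {P : ℝ} (hP : 0 < P) (x : E n) (i : Fin n) : |P13red P x i| ≤ P / 2 := by
  rw [P13red_apply]
  have h1 := abs_sub_round (x i / P)
  have h2 : x i - P * round (x i / P) = P * (x i / P - round (x i / P)) := by
    field_simp
  rw [h2, abs_mul, abs_of_pos hP]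
  nlinarith

lemma P13red_abs_le' {P : ℝ} (hP : 0 < P) (x y : E n) (i : Fin n) :
    |P13red P x i| ≤ |P13red P (x - y) i| + |y i| := by
  have h1 : |P13red P x i| ≤ |x i - P * round ((x - y) i / P)| := by
    rw [P13red_apply]
    have h := round_le (x i / P) (round ((x - y) i / P))
    have h2 : ∀ k : ℤ, x i - P * k = P * (x i / P - k) := by intro k; field_simp
    rw [h2, h2, abs_mul, abs_mul, abs_of_pos hP]
    exact mul_le_mul_of_nonneg_left h hP.le
  refine h1.trans ?_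
  have h2 : x i - P * round ((x - y) i / P) = P13red P (x - y) i + y i := by
    rw [P13red_apply]
    have : (x - y) i = x i - y i := rfl
    rw [this]; ring
  rw [h2]
  exact abs_add_le _ _

lemma P13red_sub {P : ℝ} (hP : 0 < P) {x y : E n} (hy : ∀ i, |y i| ≤ 1)
    (h : ∀ i, |P13red P x i| < P / 2 - 1) : P13red P (x - y) = P13red P x - y := by
  ext i
  have h1 : |P13red P x i - y i| < P / 2 := by
    calc |P13red P x i - y i| ≤ |P13red P x i| + |y i| := abs_sub _ _
      _ < P / 2 := by linarith [h i, hy i]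
  have h2 : (x - y) i / P = (round (x i / P) : ℤ) + (P13red P x i - y i) / P := by
    rw [P13red_apply]
    have : (x - y) i = x i - y i := rfl
    rw [this]
    field_simp
    ring
  have h3 : round ((P13red P x i - y i) / P) = 0 := by
    rw [round_eq_zero_iff]
    have h2 := abs_lt.1 h1
    constructor
    · rw [le_div_iff₀ hP]; linarith
    · rw [div_lt_iff₀ hP]; linarith
  have h4 : round ((x - y) i / P) = round (x i / P) := by
    rw [h2, round_intCast_add, h3, add_zero]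
  have h5 : (P13red P x - y) i = P13red P x i - y i := rfl
  rw [h5, P13red_apply, P13red_apply, h4]
  have : (x - y) i = x i - y i := rfl
  rw [this]; ring

lemma P13_coord_le (x : E n) (i : Fin n) : |x i| ≤ ‖x‖ := by
  simpa using EuclideanSpace.norm_eq x ▸ PiLp.norm_apply_le x i

/-- Modulus of continuity of a periodisation. -/
lemma P13_per_modulus {F : E n → ℝ} {P : ℝ} (hP : 0 < P) (hF : UniformContinuous F)
    (hsupp : ∀ z, (∃ i, P / 2 - 2 ≤ |z i|) → F z = 0) {η : ℝ} (hη : 0 < η) :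
    ∃ ε : ℝ, 0 < ε ∧ ∀ x y : E n, ‖y‖ ≤ ε →
      |F (P13red P (x - y)) - F (P13red P x)| ≤ η := by
  obtain ⟨ε₀, hε₀, h0⟩ := Metric.uniformContinuous_iff.1 hF η hη
  refine ⟨min (ε₀ / 2) 1, by positivity, fun x y hy => ?_⟩
  have hy1 : ∀ i, |y i| ≤ 1 := fun i => (P13_coord_le y i).trans (hy.trans (min_le_right _ _))
  by_cases h : ∀ i, |P13red P x i| < P / 2 - 1
  · rw [P13red_sub hP hy1 h]
    have h1 : dist (P13red P x - y) (P13red P x) < ε₀ := by
      rw [dist_eq_norm]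
      have : P13red P x - y - P13red P x = -y := by abel
      rw [this, norm_neg]
      exact lt_of_le_of_lt (hy.trans (min_le_left _ _)) (by linarith)
    have h2 := h0 h1
    rw [Real.dist_eq] at h2
    exact h2.le
  · obtain ⟨i, hi⟩ := not_forall.1 h
    rw [not_lt] at hi
    have hA : F (P13red P x) = 0 := hsupp _ ⟨i, by linarith⟩
    have hB : F (P13red P (x - y)) = 0 := hsupp _ ⟨i, by
      have := P13red_abs_le' hP x y i
      linarith [hy1 i]⟩
    rw [hA, hB]
    simpa using hη.le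

/-! ### the truncated grim reaper -/

lemma P13_log_lip {a b m : ℝ} (hm : 0 < m) (ha : m ≤ a) (hb : m ≤ b) :
    |Real.log a - Real.log b| ≤ |a - b| / m := by
  have key : ∀ a b : ℝ, m ≤ a → m ≤ b → a ≤ b → |Real.log a - Real.log b| ≤ |a - b| / m := by
    intro a b ha hb hab
    have ha0 : 0 < a := by linarith
    have hb0 : 0 < b := by linarith
    have h1 : Real.log a ≤ Real.log b := Real.log_le_log ha0 hab
    rw [abs_of_nonpos (by linarith), abs_of_nonpos (by linarith : a - b ≤ 0)]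
    have h2 : Real.log (b / a) ≤ b / a - 1 := Real.log_le_sub_one_of_pos (by positivity)
    rw [Real.log_div hb0.ne' ha0.ne'] at h2
    have h3 : b / a - 1 = (b - a) / a := by field_simp
    have h4 : (b - a) / a ≤ (b - a) / m := by
      apply div_le_div_of_nonneg_left (by linarith) hm ha
    rw [h3] at h2
    calc -(Real.log a - Real.log b) = Real.log b - Real.log a := by ring
      _ ≤ (b - a) / m := h2.trans h4
      _ = -(a - b) / m := by ring
  rcases le_total a b with h | h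
  · exact key a b ha hb h
  · rw [abs_sub_comm, abs_sub_comm a b]; exact key b a hb ha h

lemma P13_Vt_lip [NeZero n] (j : ℕ) (x y : E n) :
    |Vt j x - Vt j y| ≤ ‖x - y‖ / Real.exp (-(j : ℝ)) := by
  unfold Vt
  have h1 : |Real.log (max (Real.cos (x 0)) (Real.exp (-(j : ℝ)))) -
      Real.log (max (Real.cos (y 0)) (Real.exp (-(j : ℝ))))| ≤
      |max (Real.cos (x 0)) (Real.exp (-(j : ℝ))) - max (Real.cos (y 0)) (Real.exp (-(j : ℝ)))|
        / Real.exp (-(j : ℝ)) :=
    P13_log_lip (Real.exp_pos _) (le_max_right _ _) (le_max_right _ _)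
  have h2 : |max (Real.cos (x 0)) (Real.exp (-(j : ℝ))) -
      max (Real.cos (y 0)) (Real.exp (-(j : ℝ)))| ≤ ‖x - y‖ := by
    refine (abs_max_sub_max_le_abs _ _ _).trans ?_
    have h3 : |Real.cos (x 0) - Real.cos (y 0)| ≤ |x 0 - y 0| := by
      have := Real.abs_cos_sub_cos_le (x 0) (y 0)
      exact this
    refine h3.trans ?_
    exact P13_coord_le (x - y) 0
  calc |-Real.log (max (Real.cos (x 0)) (Real.exp (-(j : ℝ)))) -
      -Real.log (max (Real.cos (y 0)) (Real.exp (-(j : ℝ))))| =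
      |Real.log (max (Real.cos (x 0)) (Real.exp (-(j : ℝ)))) -
      Real.log (max (Real.cos (y 0)) (Real.exp (-(j : ℝ))))| := by
        rw [← abs_neg]; congr 1; ring
    _ ≤ _ := h1
    _ ≤ _ := div_le_div_of_nonneg_right h2 (Real.exp_pos _).le

lemma P13_Vt_per [NeZero n] (j L : ℕ) : Per (2 * Real.pi * L) (Vt (n := n) j) := by
  intro i x
  unfold Vt
  have h : Real.cos ((x + (2 * Real.pi * L) • ee i) 0) = Real.cos (x 0) := by
    by_cases hi : i = 0
    · subst hi
      have h1 : (x + (2 * Real.pi * (L : ℝ)) • (ee 0 : E n)) 0 = x 0 + L * (2 * Real.pi) := by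
        simp; ring
      rw [h1, Real.cos_add_nat_mul_two_pi]
    · have h1 : (x + (2 * Real.pi * (L : ℝ)) • (ee i : E n)) 0 = x 0 := by
        simp [Ne.symm hi]
      rw [h1]
  rw [h]

lemma P13_Vt_continuous [NeZero n] (j : ℕ) : Continuous (Vt (n := n) j) := by
  have h : LipschitzWith (⟨(Real.exp (-(j : ℝ)))⁻¹, by positivity⟩ : ℝ≥0) (Vt (n := n) j) := by
    refine LipschitzWith.of_dist_le_mul fun x y => ?_
    rw [Real.dist_eq, dist_eq_norm]
    refine (P13_Vt_lip j x y).trans (le_of_eq ?_)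
    rw [div_eq_inv_mul]; rfl
  exact h.continuous

lemma P13_Vt_eq [NeZero n] {j : ℕ} {x : E n} (hx : x ∈ slab n) (hj : v₀ x ≤ j) :
    Vt j x = v₀ x := by
  unfold Vt
  have hcos : 0 < Real.cos (x 0) := Real.cos_pos_of_mem_Ioo hx
  have h1 : Real.exp (-(j : ℝ)) ≤ Real.cos (x 0) := by
    unfold v₀ at hj
    rw [← Real.exp_log hcos]
    exact Real.exp_le_exp.2 (by linarith)
  rw [max_eq_left h1]
  rfl

/-- `u₀ - v₀` extended by zero. -/
noncomputable def P13w [NeZero n] (u₀ : E n → ℝ) : E n → ℝ :=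
  Set.indicator (slab n) (fun x => u₀ x - v₀ x)

lemma P13w_eq [NeZero n] {u₀ : E n → ℝ} {x : E n} (hx : x ∈ slab n) :
    P13w u₀ x = u₀ x - v₀ x := Set.indicator_of_mem hx _

lemma P13w_small [NeZero n] {u₀ : E n → ℝ} {K : Set (E n)} {ε : ℝ} (hε : 0 < ε)
    (hK : ∀ x ∈ slab n, x ∉ K → |u₀ x - v₀ x| < ε) {x : E n} (hx : x ∉ K) :
    |P13w u₀ x| < ε := by
  by_cases h : x ∈ slab n
  · rw [P13w_eq h]; exact hK x h hx
  · unfold P13w; rw [Set.indicator_of_notMem h, abs_zero]; exact hε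

lemma P13_u_cont [NeZero n] {u₀ : E n → ℝ} (h : LocallyLipschitzOn (slab n) u₀) :
    ContinuousOn u₀ (slab n) := h.continuousOn

lemma P13w_contAt [NeZero n] {u₀ : E n → ℝ} (h : LocallyLipschitzOn (slab n) u₀) {x : E n}
    (hx : x ∈ slab n) : ContinuousAt (P13w u₀) x := by
  have h1 : ContinuousOn (fun x => u₀ x - v₀ x) (slab n) := h.continuousOn.sub (v₀_continuousOn n)
  have h2 : ContinuousAt (fun x => u₀ x - v₀ x) x :=
    h1.continuousAt ((isOpen_slab' n).mem_nhds hx)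
  refine h2.congr ?_
  filter_upwards [(isOpen_slab' n).mem_nhds hx] with y hy
  rw [P13w_eq hy]

/-- The thresholded function is continuous with compact support. -/
lemma P13_thr_cont [NeZero n] {u₀ : E n → ℝ} (h : LocallyLipschitzOn (slab n) u₀)
    {K : Set (E n)} (hKc : IsCompact K) (hKs : K ⊆ slab n) {δ : ℝ} (hδ : 0 < δ)
    (hK : ∀ x ∈ slab n, x ∉ K → |u₀ x - v₀ x| < δ) :
    Continuous (fun x => P13thr δ (P13w u₀ x)) ∧
      ∀ x, x ∉ K → P13thr δ (P13w u₀ x) = 0 := by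
  have h0 : ∀ x, x ∉ K → P13thr δ (P13w u₀ x) = 0 := fun x hx =>
    P13thr_zero (P13w_small hδ hK hx).le
  refine ⟨?_, h0⟩
  rw [continuous_iff_continuousAt]
  intro x
  by_cases hx : x ∈ slab n
  · exact (P13thr_continuous δ).continuousAt.comp (P13w_contAt h hx)
  · have hx' : x ∈ Kᶜ := fun hc => hx (hKs hc)
    have h1 : (fun _ : E n => (0 : ℝ)) =ᶠ[𝓝 x] (fun x => P13thr δ (P13w u₀ x)) := by
      filter_upwards [hKc.isClosed.isOpen_compl.mem_nhds hx'] with y hy
      rw [h0 y hy]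
    exact continuousAt_const.congr h1

lemma P13w_bdd [NeZero n] {u₀ : E n → ℝ} (h : IsC0DecayPerturbation n u₀) :
    ∃ B : ℝ, 0 ≤ B ∧ ∀ x, |P13w u₀ x| ≤ B := by
  obtain ⟨K, hKc, hKs, hK⟩ := h.2 1 one_pos
  have h1 : ContinuousOn (P13w u₀) K := fun x hx =>
    (P13w_contAt h.1 (hKs hx)).continuousWithinAt
  obtain ⟨C, hC⟩ := hKc.exists_bound_of_continuousOn h1
  refine ⟨max C 1, by positivity, fun x => ?_⟩
  by_cases hx : x ∈ K
  · exact (hC x hx).trans (le_max_left _ _)
  · exact (P13w_small one_pos hK hx).le.trans (le_max_right _ _)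

/-! ### the main construction -/

/-- Data for one index `j`. -/
lemma P13_step [NeZero n] {u₀ : E n → ℝ} (h : IsC0DecayPerturbation n u₀) (j : ℕ) :
    ∃ (L : ℕ) (ε : ℝ) (_ : Mollifier n ε) (g : E n → ℝ), j + 1 ≤ L ∧
      0 < ε ∧ ε ≤ 1 / ((j : ℝ) + 1) ∧ Continuous g ∧ Per (2 * Real.pi * L) g ∧
      (∀ x y : E n, ‖y‖ ≤ ε → |g (x - y) - g x| ≤ 1 / ((j : ℝ) + 1)) ∧
      (∀ x, g x = Vt j x +
        P13thr (1 / ((j : ℝ) + 1)) (P13w u₀ (P13red (2 * Real.pi * L) x))) := by
  have hj : (0 : ℝ) < 1 / ((j : ℝ) + 1) := by positivity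
  obtain ⟨K, hKc, hKs, hK⟩ := h.2 (1 / ((j : ℝ) + 1)) hj
  obtain ⟨hFc, hF0⟩ := P13_thr_cont h.1 hKc hKs hj hK
  obtain ⟨B, hB⟩ := hKc.isBounded.exists_norm_le
  obtain ⟨L₀, hL₀⟩ := exists_nat_gt ((B + 2) / Real.pi)
  set L : ℕ := max L₀ (j + 1) with hL
  set P : ℝ := 2 * Real.pi * L with hP
  have hLpos : (0 : ℝ) < L := by
    have : j + 1 ≤ L := le_max_right _ _
    exact_mod_cast lt_of_lt_of_le (Nat.succ_pos j) this
  have hPpos : 0 < P := by positivity
  have hPB : B < P / 2 - 2 := by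
    have h1 : (L₀ : ℝ) ≤ L := by exact_mod_cast le_max_left _ _
    rw [div_lt_iff₀ Real.pi_pos] at hL₀
    have h2 : (L₀ : ℝ) * Real.pi ≤ L * Real.pi := mul_le_mul_of_nonneg_right h1 Real.pi_pos.le
    rw [hP]
    linarith
  have hsupp : ∀ z : E n, (∃ i, P / 2 - 2 ≤ |z i|) →
      P13thr (1 / ((j : ℝ) + 1)) (P13w u₀ z) = 0 := by
    rintro z ⟨i, hi⟩
    refine hF0 z fun hz => ?_
    have h1 := hB z hz
    have h2 := P13_coord_le z i
    linarith
  have hcs : HasCompactSupport (fun x => P13thr (1 / ((j : ℝ) + 1)) (P13w u₀ x)) := by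
    refine HasCompactSupport.of_support_subset_isCompact hKc fun x hx => ?_
    by_contra hc
    exact hx (hF0 x hc)
  have huc : UniformContinuous (fun x => P13thr (1 / ((j : ℝ) + 1)) (P13w u₀ x)) :=
    hcs.uniformContinuous_of_continuous hFc
  obtain ⟨ε₁, hε₁, h1⟩ := P13_per_modulus hPpos huc hsupp
    (η := 1 / ((j : ℝ) + 1) / 2) (by positivity)
  have hexp : 0 < Real.exp (-(j : ℝ)) := Real.exp_pos _
  set ε : ℝ := min (min ε₁ (1 / ((j : ℝ) + 1))) (Real.exp (-(j : ℝ)) * (1 / ((j : ℝ) + 1) / 2))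
    with hε
  have hεpos : 0 < ε := by positivity
  have hVt : ∀ x y : E n, ‖y‖ ≤ ε → |Vt j (x - y) - Vt j x| ≤ 1 / ((j : ℝ) + 1) / 2 := by
    intro x y hy
    refine (P13_Vt_lip j (x - y) x).trans ?_
    have h2 : x - y - x = -y := by abel
    rw [h2, norm_neg, div_le_iff₀ hexp]
    refine (hy.trans (min_le_right _ _)).trans (le_of_eq (by ring))
  have hmod : ∀ x y : E n, ‖y‖ ≤ ε →
      |P13thr (1 / ((j : ℝ) + 1)) (P13w u₀ (P13red P (x - y))) -
        P13thr (1 / ((j : ℝ) + 1)) (P13w u₀ (P13red P x))| ≤ 1 / ((j : ℝ) + 1) / 2 :=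
    fun x y hy => h1 x y (hy.trans ((min_le_left _ _).trans (min_le_left _ _)))
  refine ⟨L, ε, (exists_mollifier n hεpos).some, fun x => Vt j x +
        P13thr (1 / ((j : ℝ) + 1)) (P13w u₀ (P13red P x)), le_max_right _ _, hεpos,
        (min_le_left _ _).trans (min_le_right _ _), ?_, ?_, ?_, fun x => rfl⟩
  · refine (P13_Vt_continuous j).add ?_
    rw [Metric.continuous_iff]
    intro x η hη
    obtain ⟨ε₂, hε₂, h2⟩ := P13_per_modulus hPpos huc hsupp (η := η / 2) (by positivity)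
    refine ⟨ε₂, hε₂, fun y hy => ?_⟩
    have h3 := h2 x (x - y) (by rw [← dist_eq_norm, dist_comm]; exact hy.le)
    rw [sub_sub_cancel] at h3
    rw [Real.dist_eq]
    exact lt_of_le_of_lt h3 (by linarith)
  · intro i x
    have h2 := P13_Vt_per (n := n) j L i x
    have h3 := P13red_add hPpos x i
    simp only [← hP] at h2
    change Vt j (x + P • ee i) +
      P13thr (1 / ((j : ℝ) + 1)) (P13w u₀ (P13red P (x + P • ee i))) = _
    rw [h2, h3]
  · intro x y hy
    have h2 := hVt x y hy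
    have h3 := hmod x y hy
    have h4 : Vt j (x - y) + P13thr (1 / ((j : ℝ) + 1)) (P13w u₀ (P13red P (x - y))) -
        (Vt j x + P13thr (1 / ((j : ℝ) + 1)) (P13w u₀ (P13red P x))) =
        (Vt j (x - y) - Vt j x) + (P13thr (1 / ((j : ℝ) + 1)) (P13w u₀ (P13red P (x - y))) -
        P13thr (1 / ((j : ℝ) + 1)) (P13w u₀ (P13red P x))) := by ring
    simp only [h4]
    refine (abs_add_le _ _).trans ?_
    linarith

theorem initial_data [NeZero n] {u₀ : E n → ℝ} (h : IsC0DecayPerturbation n u₀) :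
    ∃ (C₀ : ℝ) (P : ℕ → ℝ) (f : ℕ → E n → ℝ),
      (∀ j, 0 < P j) ∧ Tendsto P atTop atTop ∧
      (∀ j, ContDiff ℝ ∞ (f j)) ∧ (∀ j, Per (P j) (f j)) ∧
      (∀ j x, |f j x - Vt j x| ≤ C₀) ∧
      (∀ ε : ℝ, 0 < ε → ∃ R : ℝ, ∀ᶠ j in atTop, ∀ (x : E n) (i : Fin n), i ≠ 0 →
        (∀ k : ℤ, R ≤ |x i - k * P j|) → |f j x - Vt j x| ≤ ε) ∧
      (∀ x ∈ slab n, Tendsto (fun j => f j x) atTop (𝓝 (u₀ x))) ∧
      (∀ K ⊆ slab n, IsCompact K → ∃ M : ℝ, ∀ᶠ j in atTop, ∀ x ∈ K, gradSq (f j) x ≤ M) := by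
  choose L ε m g hL hε0 hε hgc hgp hgm hg using P13_step h
  obtain ⟨B, hB0, hB⟩ := P13w_bdd h
  have hδ : Tendsto (fun j : ℕ => 1 / ((j : ℝ) + 1)) atTop (𝓝 0) :=
    tendsto_one_div_add_atTop_nhds_zero_nat
  have hδpos : ∀ j : ℕ, (0 : ℝ) < 1 / ((j : ℝ) + 1) := fun j => by positivity
  have hPpos : ∀ j, 0 < 2 * Real.pi * (L j : ℝ) := fun j => by
    have : (0 : ℝ) < L j := by
      exact_mod_cast lt_of_lt_of_le (Nat.succ_pos j) (hL j)
    positivity
  have hPge : ∀ j : ℕ, (j : ℝ) ≤ 2 * Real.pi * (L j : ℝ) / 2 := fun j => by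
    have h1 : (j : ℝ) + 1 ≤ L j := by exact_mod_cast hL j
    have h2 : (3 : ℝ) < Real.pi := Real.pi_gt_three
    nlinarith
  have hfg : ∀ j x, |(m j).J (g j) x - g j x| ≤ 1 / ((j : ℝ) + 1) := fun j x =>
    J_sub_le (m j) (hgc j) (fun y hy => hgm j x y hy)
  -- uniform information near a compact set
  have hloc : ∀ K ⊆ slab n, IsCompact K → ∃ r : ℝ, 0 < r ∧ Metric.cthickening r K ⊆ slab n ∧
      ∀ᶠ j : ℕ in atTop, ∀ y ∈ Metric.cthickening r K,
        g j y = v₀ y + P13thr (1 / ((j : ℝ) + 1)) (u₀ y - v₀ y) := by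
    intro K hKs hKc
    obtain ⟨r, hr, hrs⟩ := hKc.exists_cthickening_subset_open (isOpen_slab' n) hKs
    refine ⟨r, hr, hrs, ?_⟩
    have hK' : IsCompact (Metric.cthickening r K) := hKc.cthickening
    obtain ⟨C, hC⟩ := hK'.exists_bound_of_continuousOn ((v₀_continuousOn n).mono hrs)
    obtain ⟨D, hD⟩ := hK'.isBounded.exists_norm_le
    filter_upwards [eventually_ge_atTop ⌈C⌉₊, eventually_ge_atTop (⌈D⌉₊ + 1)] with j hj1 hj2 y hy
    have hys := hrs hy
    have h1 : v₀ y ≤ j := by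
      have := hC y hy
      rw [Real.norm_eq_abs] at this
      have h2 := (le_abs_self _).trans this
      exact h2.trans ((Nat.le_ceil C).trans (by exact_mod_cast hj1))
    have h2 : P13red (2 * Real.pi * (L j : ℝ)) y = y := by
      refine P13red_eq (hPpos j) fun i => ?_
      have h3 := (P13_coord_le y i).trans (hD y hy)
      have h4 : D ≤ ⌈D⌉₊ := Nat.le_ceil D
      have h5 : ((⌈D⌉₊ : ℝ) + 1) ≤ j := by exact_mod_cast hj2
      linarith [hPge j]
    rw [hg j y, h2, P13w_eq hys, P13_Vt_eq hys h1]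
  refine ⟨1 + B, fun j => 2 * Real.pi * (L j : ℝ), fun j => (m j).J (g j), hPpos, ?_,
    fun j => J_contDiff (m j) (hgc j), fun j => J_per (m j) (hgp j), ?_, ?_, ?_, ?_⟩
  · refine tendsto_atTop_mono (fun j => ?_) tendsto_natCast_atTop_atTop
    have := hPge j
    have h1 := hPpos j
    linarith
  · intro j x
    have h1 := hfg j x
    have h2 : |g j x - Vt j x| ≤ B := by
      rw [hg j x, add_sub_cancel_left]
      exact (P13thr_abs_le (hδpos j).le _).trans (hB _)
    have h3 : 1 / ((j : ℝ) + 1) ≤ 1 := by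
      rw [div_le_one (by positivity)]
      have : (0 : ℝ) ≤ j := Nat.cast_nonneg j
      linarith
    calc |(m j).J (g j) x - Vt j x| = |((m j).J (g j) x - g j x) + (g j x - Vt j x)| := by
          congr 1; ring
      _ ≤ _ := abs_add_le _ _
      _ ≤ 1 + B := by linarith
  · intro η hη
    obtain ⟨K, hKc, hKs, hK⟩ := h.2 (η / 2) (by positivity)
    obtain ⟨R, hR⟩ := hKc.isBounded.exists_norm_le
    refine ⟨R + 1, ?_⟩
    have h1 : ∀ᶠ j : ℕ in atTop, 1 / ((j : ℝ) + 1) < η / 2 :=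
      hδ.eventually (gt_mem_nhds (by positivity))
    filter_upwards [h1] with j hj x i _ hx
    have h2 := hfg j x
    have h3 : |g j x - Vt j x| ≤ η / 2 := by
      rw [hg j x, add_sub_cancel_left]
      refine (P13thr_abs_le (hδpos j).le _).trans ?_
      refine (P13w_small (by positivity) hK fun hc => ?_).le
      have h4 := hR _ hc
      have h5 := P13_coord_le (P13red (2 * Real.pi * (L j : ℝ)) x) i
      have h6 := hx (round (x i / (2 * Real.pi * (L j : ℝ))))
      rw [P13red_apply, mul_comm] at h5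
      linarith
    calc |(m j).J (g j) x - Vt j x| = |((m j).J (g j) x - g j x) + (g j x - Vt j x)| := by
          congr 1; ring
      _ ≤ _ := abs_add_le _ _
      _ ≤ η := by linarith
  · intro x hx
    obtain ⟨r, hr, hrs, hev⟩ := hloc {x} (by simpa using hx) isCompact_singleton
    have hxm : x ∈ Metric.cthickening r {x} := Metric.self_subset_cthickening _ (mem_singleton x)
    have h2 : Tendsto (fun j : ℕ => 2 * (1 / ((j : ℝ) + 1))) atTop (𝓝 0) := by
      simpa using hδ.const_mul 2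
    rw [tendsto_iff_norm_sub_tendsto_zero]
    refine squeeze_zero' (Eventually.of_forall fun j => norm_nonneg _) ?_ h2
    filter_upwards [hev] with j hj
    have h3 := hj x hxm
    have h4 := hfg j x
    have h5 := P13thr_sub_le (hδpos j).le (u₀ x - v₀ x)
    rw [Real.norm_eq_abs]
    calc |(m j).J (g j) x - u₀ x| = |((m j).J (g j) x - g j x) +
          (P13thr (1 / ((j : ℝ) + 1)) (u₀ x - v₀ x) - (u₀ x - v₀ x))| := by
          congr 1; rw [h3]; ring
      _ ≤ _ := abs_add_le _ _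
      _ ≤ 2 * (1 / ((j : ℝ) + 1)) := by linarith
  · intro K hKs hKc
    obtain ⟨r, hr, hrs, hev⟩ := hloc K hKs hKc
    obtain ⟨r₁, hr₁, Λ₁, h1⟩ := P13_unif_lip (F := u₀) hKc (fun x hx => by
      obtain ⟨C, t, ht, hC⟩ := h.1 (hKs hx)
      rw [(isOpen_slab' n).nhdsWithin_eq (hKs hx)] at ht
      exact ⟨C, t, ht, hC⟩)
    obtain ⟨r₂, hr₂, Λ₂, h2⟩ := P13_unif_lip (F := v₀ (n := n)) hKc (fun x hx => by
      have hcos : 0 < Real.cos (x 0) := Real.cos_pos_of_mem_Ioo (hKs hx)
      have hcd : ContDiffAt ℝ 1 (v₀ (n := n)) x := by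
        have h3 : ContDiffAt ℝ 1 (fun y : E n => Real.cos (y 0)) x :=
          Real.contDiff_cos.contDiffAt.comp x
            ((EuclideanSpace.proj (𝕜 := ℝ) (0 : Fin n)).contDiff.contDiffAt)
        exact (h3.log hcos.ne').neg
      obtain ⟨C, t, ht, hC⟩ := hcd.exists_lipschitzOnWith
      exact ⟨C, t, ht, hC⟩)
    set ρ : ℝ := min r (min r₁ r₂) with hρ
    have hρpos : 0 < ρ := by positivity
    set Λ : ℝ≥0 := Λ₂ + (Λ₁ + Λ₂) with hΛ
    refine ⟨n * (Λ : ℝ) ^ 2, ?_⟩
    have h3 : ∀ᶠ j : ℕ in atTop, 1 / ((j : ℝ) + 1) < ρ :=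
      hδ.eventually (gt_mem_nhds hρpos)
    filter_upwards [hev, h3] with j hj hj2 x hx
    have hlip : LipschitzOnWith Λ (g j) (Metric.ball x ρ) := by
      refine LipschitzOnWith.of_dist_le_mul fun y hy z hz => ?_
      have hsub : ∀ y ∈ Metric.ball x ρ, y ∈ Metric.cthickening r K := by
        intro y hy
        refine Metric.mem_cthickening_of_dist_le y x r K hx ?_
        exact (Metric.mem_ball.1 hy).le.trans (min_le_left _ _)
      have h5 := (h1 x hx).dist_le_mul y
        (Metric.ball_subset_ball ((min_le_right _ _).trans (min_le_left _ _)) hy) z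
        (Metric.ball_subset_ball ((min_le_right _ _).trans (min_le_left _ _)) hz)
      have h6 := (h2 x hx).dist_le_mul y
        (Metric.ball_subset_ball ((min_le_right _ _).trans (min_le_right _ _)) hy) z
        (Metric.ball_subset_ball ((min_le_right _ _).trans (min_le_right _ _)) hz)
      rw [hj y (hsub y hy), hj z (hsub z hz)]
      rw [Real.dist_eq] at h5 h6 ⊢
      have h7 := P13thr_lip (hδpos j).le (u₀ y - v₀ y) (u₀ z - v₀ z)
      have h8 : |(u₀ y - v₀ y) - (u₀ z - v₀ z)| ≤ |u₀ y - u₀ z| + |v₀ y - v₀ z| := by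
        have : (u₀ y - v₀ y) - (u₀ z - v₀ z) = (u₀ y - u₀ z) - (v₀ y - v₀ z) := by ring
        rw [this]; exact abs_sub _ _
      have h9 : |v₀ y + P13thr (1 / ((j : ℝ) + 1)) (u₀ y - v₀ y) -
          (v₀ z + P13thr (1 / ((j : ℝ) + 1)) (u₀ z - v₀ z))| ≤ |v₀ y - v₀ z| +
          |P13thr (1 / ((j : ℝ) + 1)) (u₀ y - v₀ y) -
            P13thr (1 / ((j : ℝ) + 1)) (u₀ z - v₀ z)| := by
        have : v₀ y + P13thr (1 / ((j : ℝ) + 1)) (u₀ y - v₀ y) -
          (v₀ z + P13thr (1 / ((j : ℝ) + 1)) (u₀ z - v₀ z)) = (v₀ y - v₀ z) +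
          (P13thr (1 / ((j : ℝ) + 1)) (u₀ y - v₀ y) -
            P13thr (1 / ((j : ℝ) + 1)) (u₀ z - v₀ z)) := by ring
        rw [this]; exact abs_add_le _ _
      have h10 : ((Λ : ℝ≥0) : ℝ) * dist y z = Λ₂ * dist y z + (Λ₁ * dist y z + Λ₂ * dist y z) := by
        rw [hΛ]; push_cast; ring
      rw [h10]
      linarith
    have hlipJ := J_lipschitzOn (m j) (hgc j) hlip
    have hmem : Metric.ball x (ρ - ε j) ∈ 𝓝 x :=
      Metric.ball_mem_nhds x (by linarith [hε j])
    have hn := norm_fderiv_le_of_lipschitzOn (𝕜 := ℝ) hmem hlipJ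
    unfold gradSq
    have h4 : ∀ i : Fin n, (pd i ((m j).J (g j)) x) ^ 2 ≤ (Λ : ℝ) ^ 2 := by
      intro i
      have h5 : |pd i ((m j).J (g j)) x| ≤ Λ := by
        unfold pd
        have h6 := (fderiv ℝ ((m j).J (g j)) x).le_opNorm (ee i)
        rw [Real.norm_eq_abs] at h6
        have h7 : ‖(ee i : E n)‖ = 1 := by simp
        rw [h7, mul_one] at h6
        exact h6.trans hn
      rw [← sq_abs]
      exact pow_le_pow_left₀ (abs_nonneg _) h5 2
    calc ∑ i, (pd i ((m j).J (g j)) x) ^ 2 ≤ ∑ _i : Fin n, (Λ : ℝ) ^ 2 :=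
          Finset.sum_le_sum fun i _ => h4 i
      _ = n * (Λ : ℝ) ^ 2 := by simp

end Pool.Agent.GR
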