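import Pool.Agent.Helper35.GR.Defs2

/-!
# P1 : mollifiers
-/

set_option autoImplicit false

open scoped ContDiff Topology NNReal Convolution
open Set Filter MeasureTheory

namespace Pool.Agent.GR

open Pool.Agent.Helper25.GrimReaper

variable {n : ℕ}

theorem exists_mollifier (n : ℕ) {ε : ℝ} (hε : 0 < ε) : Nonempty (Mollifier n ε) := by
  let b : ContDiffBump (0 : E n) := ⟨ε / 2, ε, by positivity, by linarith⟩
  refine ⟨⟨b.normed volume, b.contDiff_normed, fun x => b.nonneg_normed x, ?_,
    fun x => b.normed_neg x, b.integral_normed⟩⟩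
  intro x hx
  have h1 : x ∉ Function.support (b.normed volume) := by
    rw [b.support_normed_eq]
    simpa [b] using hx
  simpa using h1

/-- Convolution with a kernel. -/
noncomputable def P1conv (ψ f : E n → ℝ) (x : E n) : ℝ := ∫ y, ψ y * f (x - y)

lemma P1_conv_eq (ψ f : E n → ℝ) :
    P1conv ψ f = (ψ ⋆[ContinuousLinearMap.lsmul ℝ ℝ, volume] f) := by
  funext x
  simp [P1conv, convolution]

lemma P1_J_eq {ε : ℝ} (m : Mollifier n ε) (f : E n → ℝ) : m.J f = P1conv m.φ f := rfl

lemma Mollifier.hcs {ε : ℝ} (m : Mollifier n ε) : HasCompactSupport m.φ := by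
  refine HasCompactSupport.of_support_subset_isCompact (isCompact_closedBall (0 : E n) ε) ?_
  intro x hx
  rw [Metric.mem_closedBall, dist_zero_right]
  by_contra hc
  exact hx (m.supp x (le_of_lt (not_le.1 hc)))

lemma P1_integrable {ψ h : E n → ℝ} (hψ : Continuous ψ) (hc : HasCompactSupport ψ)
    (hh : Continuous h) : Integrable (fun y => ψ y * h y) :=
  (hψ.mul hh).integrable_of_hasCompactSupport hc.mul_right

lemma Mollifier.integrable_mul {ε : ℝ} (m : Mollifier n ε) {h : E n → ℝ} (hh : Continuous h) :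
    Integrable (fun y => m.φ y * h y) :=
  P1_integrable m.smooth.continuous m.hcs hh

lemma Mollifier.abs_integral_le {ε : ℝ} (m : Mollifier n ε) {h : E n → ℝ} (hh : Continuous h)
    {K : ℝ} (hK : ∀ y, ‖y‖ ≤ ε → |h y| ≤ K) : |∫ y, m.φ y * h y| ≤ K := by
  have hφ : Integrable m.φ := m.smooth.continuous.integrable_of_hasCompactSupport m.hcs
  calc |∫ y, m.φ y * h y| ≤ ∫ y, |m.φ y * h y| := abs_integral_le_integral_abs
    _ ≤ ∫ y, m.φ y * K := by
        refine integral_mono (m.integrable_mul hh).abs (hφ.mul_const K) ?_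
        intro y
        simp only [abs_mul, abs_of_nonneg (m.nonneg y)]
        by_cases hy : ‖y‖ ≤ ε
        · exact mul_le_mul_of_nonneg_left (hK y hy) (m.nonneg y)
        · rw [m.supp y (le_of_lt (not_le.1 hy))]; simp
    _ = K := by rw [integral_mul_const, m.int, one_mul]

theorem J_contDiff {ε : ℝ} (m : Mollifier n ε) {f : E n → ℝ} (hf : Continuous f) :
    ContDiff ℝ ∞ (m.J f) := by
  rw [P1_J_eq, P1_conv_eq]
  exact m.hcs.contDiff_convolution_left _ m.smooth hf.locallyIntegrable

lemma P1_pd_conv {ψ f : E n → ℝ} (hψ : ContDiff ℝ ∞ ψ) (hc : HasCompactSupport ψ)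
    (hf : Continuous f) (i : Fin n) : pd i (P1conv ψ f) = P1conv (pd i ψ) f := by
  funext x
  have hψ1 : ContDiff ℝ 1 ψ := hψ.of_le (by norm_cast)
  have h := hc.hasFDerivAt_convolution_left (ContinuousLinearMap.lsmul ℝ ℝ) hψ1
    (hf.locallyIntegrable (μ := volume)) x
  have hint := (hc.fderiv (𝕜 := ℝ)).convolutionExists_left
    ((ContinuousLinearMap.lsmul ℝ ℝ).precompL (E n)) (hψ1.continuous_fderiv (by norm_num))
    (hf.locallyIntegrable (μ := volume)) x
  unfold pd
  rw [P1_conv_eq, h.fderiv]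
  unfold convolution
  rw [ContinuousLinearMap.integral_apply hint]
  simp [P1conv]

lemma P1_Dw_conv {ψ f : E n → ℝ} (hψ : ContDiff ℝ ∞ ψ) (hc : HasCompactSupport ψ)
    (hf : Continuous f) (w : List (Fin n)) :
    Dw w (P1conv ψ f) = P1conv (Dw w ψ) f ∧ HasCompactSupport (Dw w ψ) := by
  induction w with
  | nil => exact ⟨rfl, hc⟩
  | cons i w ih =>
    refine ⟨?_, ih.2.fderiv_apply ℝ (ee i)⟩
    rw [Dw_cons, ih.1, P1_pd_conv (contDiff_Dw hψ w) ih.2 hf i]
    rfl

theorem J_Dw_bound {ε : ℝ} (m : Mollifier n ε) (w : List (Fin n)) :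
    ∃ C : ℝ, ∀ f : E n → ℝ, Continuous f → ∀ B : ℝ, (∀ x, |f x| ≤ B) →
      ∀ x, |Dw w (m.J f) x| ≤ C * B := by
  refine ⟨∫ y, |Dw w m.φ y|, fun f hf B hB x => ?_⟩
  have h1 := P1_Dw_conv m.smooth m.hcs hf w
  rw [P1_J_eq, h1.1]
  have hφ : Continuous (Dw w m.φ) := (contDiff_Dw m.smooth w).continuous
  have hi : Integrable (Dw w m.φ) := hφ.integrable_of_hasCompactSupport h1.2
  calc |P1conv (Dw w m.φ) f x| ≤ ∫ y, |Dw w m.φ y * f (x - y)| :=
        abs_integral_le_integral_abs
    _ ≤ ∫ y, |Dw w m.φ y| * B := by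
        refine integral_mono (P1_integrable hφ h1.2 (by fun_prop)).abs (hi.abs.mul_const B) ?_
        intro y
        simp only [abs_mul]
        exact mul_le_mul_of_nonneg_left (hB _) (abs_nonneg _)
    _ = (∫ y, |Dw w m.φ y|) * B := integral_mul_const _ _

lemma P1_conv_pd {ψ f : E n → ℝ} (hψ : ContDiff ℝ ∞ ψ) (hc : HasCompactSupport ψ)
    (hf : ContDiff ℝ ∞ f) (i : Fin n) : P1conv (pd i ψ) f = P1conv ψ (pd i f) := by
  funext x
  have hfd : Differentiable ℝ f := hf.differentiable (by simp)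
  have hψd : Differentiable ℝ ψ := hψ.differentiable (by simp)
  have hg : Differentiable ℝ (fun y => f (x - y)) := by fun_prop
  have hgd : ∀ y, fderiv ℝ (fun y => f (x - y)) y (ee i) = -pd i f (x - y) := by
    intro y
    have h1 : HasFDerivAt (fun y => f (x - y)) ((fderiv ℝ f (x - y)).comp
        (-ContinuousLinearMap.id ℝ (E n))) y := by
      refine (hfd (x - y)).hasFDerivAt.comp y ?_
      exact ((hasFDerivAt_id y).const_sub x)
    rw [h1.fderiv]
    simp [pd]
  have hcf : Continuous f := hf.continuous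
  have hcpf : Continuous (pd i f) := (contDiff_pd hf i).continuous
  have hcpψ : Continuous (pd i ψ) := (contDiff_pd hψ i).continuous
  have hcp : HasCompactSupport (pd i ψ) := hc.fderiv_apply ℝ (ee i)
  have h := integral_mul_fderiv_eq_neg_fderiv_mul_of_integrable (μ := (volume : Measure (E n)))
    (f := ψ) (g := fun y => f (x - y)) (v := ee i)
    (P1_integrable hcpψ hcp (by fun_prop))
    (by
      simp only [hgd]
      exact P1_integrable hψ.continuous hc (by fun_prop))
    (P1_integrable hψ.continuous hc (by fun_prop)) (fun y _ => hψd y) (fun y _ => hg y)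
  simp only [hgd, mul_neg, integral_neg, neg_inj] at h
  exact h.symm

theorem J_Dw {ε : ℝ} (m : Mollifier n ε) {f : E n → ℝ} (hf : ContDiff ℝ ∞ f)
    (w : List (Fin n)) : Dw w (m.J f) = m.J (Dw w f) := by
  induction w with
  | nil => rfl
  | cons i w ih =>
    have h1 := contDiff_Dw hf w
    rw [Dw_cons, ih, Dw_cons, P1_J_eq, P1_J_eq, P1_pd_conv m.smooth m.hcs h1.continuous i,
      P1_conv_pd m.smooth m.hcs h1 i]

theorem J_abs_le {ε : ℝ} (m : Mollifier n ε) {f : E n → ℝ} (hf : Continuous f) {B : ℝ}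
    (h : ∀ x, |f x| ≤ B) (x : E n) : |m.J f x| ≤ B :=
  m.abs_integral_le (h := fun y => f (x - y)) (by fun_prop) (fun y _ => h _)

theorem J_sub_le {ε : ℝ} (m : Mollifier n ε) {f : E n → ℝ} (hf : Continuous f) {K : ℝ} {x : E n}
    (h : ∀ y, ‖y‖ ≤ ε → |f (x - y) - f x| ≤ K) : |m.J f x - f x| ≤ K := by
  have h1 := m.abs_integral_le (h := fun y => f (x - y) - f x) (by fun_prop) h
  have h2 : ∫ y, m.φ y * (f (x - y) - f x) = m.J f x - f x := by
    simp only [mul_sub]
    rw [integral_sub (m.integrable_mul (h := fun y => f (x - y)) (by fun_prop))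
      (m.integrable_mul (h := fun _ => f x) (by fun_prop)), integral_mul_const, m.int, one_mul]
    rfl
  rwa [h2] at h1

theorem J_per {ε : ℝ} (m : Mollifier n ε) {P : ℝ} {f : E n → ℝ} (h : Per P f) :
    Per P (m.J f) := by
  intro i x
  unfold Mollifier.J
  refine integral_congr_ae (Eventually.of_forall fun y => ?_)
  have : x + P • ee i - y = (x - y) + P • ee i := by abel
  simp only [this, h i (x - y)]

theorem J_add {ε : ℝ} (m : Mollifier n ε) {f g : E n → ℝ} (hf : Continuous f)
    (hg : Continuous g) : m.J (fun x => f x + g x) = fun x => m.J f x + m.J g x := by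
  funext x
  unfold Mollifier.J
  simp only [mul_add]
  exact integral_add (m.integrable_mul (h := fun y => f (x - y)) (by fun_prop))
    (m.integrable_mul (h := fun y => g (x - y)) (by fun_prop))

theorem J_sub {ε : ℝ} (m : Mollifier n ε) {f g : E n → ℝ} (hf : Continuous f)
    (hg : Continuous g) : m.J (fun x => f x - g x) = fun x => m.J f x - m.J g x := by
  funext x
  unfold Mollifier.J
  simp only [mul_sub]
  exact integral_sub (m.integrable_mul (h := fun y => f (x - y)) (by fun_prop))
    (m.integrable_mul (h := fun y => g (x - y)) (by fun_prop))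

theorem J_const_mul {ε : ℝ} (m : Mollifier n ε) (c : ℝ) (f : E n → ℝ) :
    m.J (fun x => c * f x) = fun x => c * m.J f x := by
  funext x
  unfold Mollifier.J
  rw [← integral_const_mul]
  refine integral_congr_ae (Eventually.of_forall fun y => ?_)
  simp only
  ring

/-- Mollification of a function which is Lipschitz on a ball. -/
theorem J_lipschitzOn {ε : ℝ} (m : Mollifier n ε) {f : E n → ℝ} (hf : Continuous f) {x : E n}
    {r : ℝ} {Λ : ℝ≥0} (h : LipschitzOnWith Λ f (Metric.ball x r)) :
    LipschitzOnWith Λ (m.J f) (Metric.ball x (r - ε)) := by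
  refine LipschitzOnWith.of_dist_le_mul fun y hy z hz => ?_
  have h2 : ∫ v, m.φ v * (f (y - v) - f (z - v)) = m.J f y - m.J f z := by
    simp only [mul_sub]
    rw [integral_sub (m.integrable_mul (h := fun v => f (y - v)) (by fun_prop))
      (m.integrable_mul (h := fun v => f (z - v)) (by fun_prop))]
    rfl
  rw [Real.dist_eq, ← h2]
  refine m.abs_integral_le (h := fun v => f (y - v) - f (z - v)) (by fun_prop) fun v hv => ?_
  have hy' : y - v ∈ Metric.ball x r := by
    rw [Metric.mem_ball, dist_eq_norm] at hy ⊢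
    calc ‖y - v - x‖ = ‖(y - x) - v‖ := by congr 1; abel
      _ ≤ ‖y - x‖ + ‖v‖ := norm_sub_le _ _
      _ < r := by linarith
  have hz' : z - v ∈ Metric.ball x r := by
    rw [Metric.mem_ball, dist_eq_norm] at hz ⊢
    calc ‖z - v - x‖ = ‖(z - x) - v‖ := by congr 1; abel
      _ ≤ ‖z - x‖ + ‖v‖ := norm_sub_le _ _
      _ < r := by linarith
  have h3 := h.dist_le_mul _ hy' _ hz'
  rw [Real.dist_eq] at h3
  simpa using h3

end Pool.Agent.GR
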